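import Pool.Agent.Run7.h982.CF.Iface

set_option autoImplicit false

open Set Filter Topology

namespace Pool.Agent.Run7.h191.CF

open Pool.Agent.Results.MP_c42e77_an.ContinuumLevel Pool.Agent.Run7.h982.CF

noncomputable def F (m k : ℕ) : ℝ := 1 / (Nat.factorial (k + m) : ℝ)

theorem F_pos (m k : ℕ) : 0 < F m k := by unfold F; positivity

theorem F_sum (m : ℕ) : Summable (F m) := by
  have h := (summable_nat_add_iff m).2 (Real.summable_pow_div_factorial 1)
  refine h.congr fun n => ?_
  simp [F]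

theorem F_succ (m k : ℕ) : F m (k + 1) = F (m + 1) k := by
  unfold F
  rw [show k + 1 + m = k + (m + 1) by ring]

theorem F_mul (m k : ℕ) : F m k = ((k : ℝ) + m + 1) * F (m + 1) k := by
  unfold F
  rw [show k + (m + 1) = (k + m) + 1 by ring, Nat.factorial_succ]
  have h : ((Nat.factorial (k + m) : ℕ) : ℝ) ≠ 0 := by positivity
  have h2 : ((k : ℝ) + m + 1) ≠ 0 := by positivity
  push_cast
  field_simp

theorem b_eq (k : ℕ) : b k = F 4 k := rfl

theorem b_pos (k : ℕ) : 0 < b k := F_pos 4 k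

theorem b_sum : Summable b := F_sum 4

theorem tele (k : ℕ) : ((k : ℝ) + 3) * b k = F 3 k - F 3 (k + 1) := by
  have h1 := F_mul 3 k
  have h2 := F_succ 3 k
  rw [b_eq, h2, h1]
  push_cast
  ring

theorem bs (k : ℕ) : Summable (fun i => b (k + i)) := by
  have := (summable_nat_add_iff k).2 b_sum
  simpa [add_comm] using this

theorem teles (k : ℕ) : HasSum (fun i => ((k + i : ℕ) : ℝ) * b (k + i) + 3 * b (k + i)) (F 3 k) := by
  rw [hasSum_iff_tendsto_nat_of_nonneg]
  · have h : ∀ n, ∑ i ∈ Finset.range n, (((k + i : ℕ) : ℝ) * b (k + i) + 3 * b (k + i))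
        = F 3 k - F 3 (k + n) := by
      intro n
      have h2 := Finset.sum_range_sub' (fun i => F 3 (k + i)) n
      simp only [add_zero] at h2
      rw [← h2]
      refine Finset.sum_congr rfl fun i _ => ?_
      have := tele (k + i)
      rw [show k + (i + 1) = k + i + 1 by ring, ← this]
      ring
    simp only [h]
    have h3 : Tendsto (fun n => F 3 (k + n)) atTop (𝓝 0) := by
      have := (F_sum 3).tendsto_atTop_zero.comp (tendsto_add_atTop_nat k)
      refine this.congr fun n => ?_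
      simp [add_comm]
    simpa using tendsto_const_nhds.sub h3
  · intro i
    have := b_pos (k + i)
    positivity

theorem a_lt (k : ℕ) : a k < F 3 k := by
  rw [← (teles k).tsum_eq]
  refine Summable.tsum_lt_tsum (i := 0) ?_ ?_ (bs k) (teles k).summable
  · intro i
    have := b_pos (k + i)
    have h2 : (0 : ℝ) ≤ ((k + i : ℕ) : ℝ) := Nat.cast_nonneg _
    nlinarith
  · have := b_pos (k + 0)
    have h2 : (0 : ℝ) ≤ ((k + 0 : ℕ) : ℝ) := Nat.cast_nonneg _
    nlinarith

theorem a_pos (k : ℕ) : 0 < a k := (bs k).tsum_pos (fun i => (b_pos _).le) 0 (b_pos _)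

theorem a_rec (k : ℕ) : a k = b k + a (k + 1) := by
  unfold a
  rw [(bs k).tsum_eq_zero_add]
  simp only [add_zero]
  congr 1
  refine tsum_congr fun i => ?_
  congr 1
  ring

theorem xs_even (k : ℕ) : xs (2 * k) = a k := by
  unfold xs
  rw [if_pos (by omega)]
  congr 1
  omega

theorem xs_odd (k : ℕ) : xs (2 * k + 1) = b k := by
  unfold xs
  rw [if_neg (by omega)]
  congr 1
  omega

theorem xs_pos (n : ℕ) : 0 < xs n := by
  unfold xs
  split_ifs
  · exact a_pos _
  · exact b_pos _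

theorem xs_sum : Summable xs := by
  have h1 : Summable (fun k => xs (2 * k)) := by
    simp only [xs_even]
    exact Summable.of_nonneg_of_le (fun k => (a_pos k).le) (fun k => (a_lt k).le) (F_sum 3)
  have h2 : Summable (fun k => xs (2 * k + 1)) := by
    simp only [xs_odd]
    exact b_sum
  exact (h1.hasSum.even_add_odd h2.hasSum).summable

theorem xs_dec (n : ℕ) : xs (n + 1) < xs n := by
  rcases Nat.even_or_odd' n with ⟨k, rfl | rfl⟩
  · rw [xs_odd, xs_even, a_rec]
    linarith [a_pos (k + 1)]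
  · rw [xs_odd, show 2 * k + 1 + 1 = 2 * (k + 1) by ring, xs_even]
    have := a_lt (k + 1)
    rwa [F_succ] at this

theorem bi_nonneg (u : Bool) : 0 ≤ bi u := by cases u <;> simp [bi]

theorem bi_le (u : Bool) : bi u ≤ 1 := by cases u <;> simp [bi]

theorem AA_nonneg (ε : ℕ → Bool) (j : ℕ) : 0 ≤ AA ε j := Finset.sum_nonneg fun _ _ => bi_nonneg _

theorem AA_le (ε : ℕ → Bool) (j : ℕ) : AA ε j ≤ j := by
  unfold AA
  calc ∑ k ∈ Finset.range j, bi (ε (2 * k)) ≤ ∑ k ∈ Finset.range j, 1 :=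
        Finset.sum_le_sum fun _ _ => bi_le _
    _ = j := by simp

theorem cc_succ (ε : ℕ → Bool) (j : ℕ) : cc ε (j + 1) = bi (ε (2 * j + 1)) + AA ε (j + 1) := rfl

theorem cc_nonneg (ε : ℕ → Bool) (j : ℕ) : 0 ≤ cc ε (j + 1) := by
  rw [cc_succ]
  exact add_nonneg (bi_nonneg _) (AA_nonneg _ _)

theorem cc_le (ε : ℕ → Bool) (j : ℕ) : cc ε (j + 1) ≤ j + 2 := by
  rw [cc_succ]
  have h1 := bi_le (ε (2 * j + 1))
  have h2 := AA_le ε (j + 1)
  push_cast at h2
  linarith

theorem cc_sum (ε : ℕ → Bool) : Summable (fun j => (cc ε (j + 1) : ℝ) * b j) := by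
  refine Summable.of_nonneg_of_le (fun j => ?_) (fun j => ?_) (teles 0).summable
  · exact mul_nonneg (by exact_mod_cast cc_nonneg ε j) (b_pos j).le
  · have h1 : ((cc ε (j + 1) : ℤ) : ℝ) ≤ (j : ℝ) + 2 := by exact_mod_cast cc_le ε j
    have h2 := b_pos j
    simp only [zero_add]
    nlinarith

theorem part (ε : ℕ → Bool) (N : ℕ) :
    ∑ n ∈ Finset.range (2 * N), (if ε n = true then xs n else 0)
      = ∑ j ∈ Finset.range N, (cc ε (j + 1) : ℝ) * b j + (AA ε N : ℝ) * a N := by
  induction N with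
  | zero => simp [AA]
  | succ N ih =>
    rw [show 2 * (N + 1) = 2 * N + 1 + 1 by ring, Finset.sum_range_succ, Finset.sum_range_succ, ih,
      Finset.sum_range_succ (fun j => (cc ε (j + 1) : ℝ) * b j)]
    have hA : AA ε (N + 1) = AA ε N + bi (ε (2 * N)) := Finset.sum_range_succ _ _
    have e1 : (if ε (2 * N) = true then xs (2 * N) else 0) = (bi (ε (2 * N)) : ℝ) * a N := by
      rw [xs_even]
      cases ε (2 * N) <;> simp [bi]
    have e2 : (if ε (2 * N + 1) = true then xs (2 * N + 1) else 0)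
        = (bi (ε (2 * N + 1)) : ℝ) * b N := by
      rw [xs_odd]
      cases ε (2 * N + 1) <;> simp [bi]
    rw [e1, e2, cc_succ, hA]
    push_cast
    rw [a_rec N]
    ring

theorem AAa (ε : ℕ → Bool) : Tendsto (fun N => (AA ε N : ℝ) * a N) atTop (𝓝 0) := by
  refine squeeze_zero (fun N => ?_) (fun N => ?_) (F_sum 2).tendsto_atTop_zero
  · exact mul_nonneg (by exact_mod_cast AA_nonneg ε N) (a_pos N).le
  · have h1 : ((AA ε N : ℤ) : ℝ) ≤ (N : ℝ) := by exact_mod_cast AA_le ε N
    have h2 := a_pos N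
    have h3 := a_lt N
    have h4 := F_mul 2 N
    have h5 := F_pos 3 N
    have h6 : (0 : ℝ) ≤ N := Nat.cast_nonneg _
    rw [h4]
    push_cast
    calc ((AA ε N : ℤ) : ℝ) * a N ≤ (N : ℝ) * a N := mul_le_mul_of_nonneg_right h1 h2.le
      _ ≤ (N : ℝ) * F 3 N := mul_le_mul_of_nonneg_left h3.le h6
      _ ≤ ((N : ℝ) + 2 + 1) * F (2 + 1) N := by
        apply mul_le_mul_of_nonneg_right _ h5.le
        linarith

theorem t_SUM : S_SUM := by
  refine ⟨xs_pos, xs_sum, xs_dec, fun ε => ⟨cc_sum ε, ?_⟩⟩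
  have hu : Summable (fun n => if ε n = true then xs n else 0) := by
    refine Summable.of_nonneg_of_le (fun n => ?_) (fun n => ?_) xs_sum
    · split_ifs
      · exact (xs_pos n).le
      · exact le_refl _
    · split_ifs
      · exact le_refl _
      · exact (xs_pos n).le
  have h1 : Tendsto (fun N => ∑ n ∈ Finset.range (2 * N), (if ε n = true then xs n else 0)) atTop
      (𝓝 (subsum xs ε)) :=
    hu.hasSum.tendsto_sum_nat.comp (tendsto_id.const_mul_atTop' (by norm_num))
  have h2 : Tendsto (fun N => ∑ n ∈ Finset.range (2 * N), (if ε n = true then xs n else 0)) atTop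
      (𝓝 (∑' j, (cc ε (j + 1) : ℝ) * b j)) := by
    simp only [part]
    simpa using (cc_sum ε).hasSum.tendsto_sum_nat.add (AAa ε)
  exact tendsto_nhds_unique h1 h2

end Pool.Agent.Run7.h191.CF
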